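import Pool.Agent.Q145.MS.Final

set_option autoImplicit false

/-!
A finest matroid subdivision of the hypersimplex `Δ(3,9)` can have a decomposable maximal cell.

Let `M` be the rank 3 matroid on nine points with lines `0123, 0456, 078, 147, 248, 357, 158, 267,
368` (a restriction of the projective plane over the field with three elements). It is so rigid
that it is the only matroid below it whose polytope contains `(1/3,...,1/3)`, so in every
refinement of the subdivision of `Δ(3,9)` cut out by the hyperplanes `x(ℓ) = 2` of its lines, the
polytope of `M` stays undivided. Hence its facet `x(0123) = 2`, a product `Δ(2,4) × Δ(1,5)`, stays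
undivided too, and the cell behind this facet is the polytope of a matroid every nontrivial
subdivision of which would divide the facet; but this matroid is decomposable.
-/

namespace Pool.Agent.Results.MP_6a4d09_co.FinestCell

open Set Pool.Agent.Q145.MS

/-- The question: is every maximal cell of every finest matroid subdivision of every hypersimplex
the polytope of an indecomposable matroid? -/
def Question : Prop :=
  ∀ k n : ℕ, 1 ≤ k → k ≤ n → ∀ (K : Set (Set (Fin n → ℝ))) (C : Set (Fin n → ℝ)),
    IsFinest (hypersimplex k n) K → IsMaximalCell K C →
      ∃ N : Matroid (Fin n), N.E = univ ∧ matroidPolytope N = C ∧ Indecomposable N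

/-- The answer is no, already for `Δ(3,9)`: there is a finest matroid subdivision with a maximal
cell which is a matroid polytope, but of no indecomposable matroid. -/
theorem result : ¬ Question ∧
    ∃ (K : Set (Set (Fin 9 → ℝ))) (C : Set (Fin 9 → ℝ)),
      IsFinest (hypersimplex 3 9) K ∧ IsMaximalCell K C ∧
      (∃ N : Matroid (Fin 9), N.E = univ ∧ matroidPolytope N = C) ∧
      ∀ N : Matroid (Fin 9), matroidPolytope N = C → ¬ Indecomposable N := by
  refine ⟨fun h => ?_, main⟩
  obtain ⟨K, C, hK, hC, _, hno⟩ := main
  obtain ⟨N, _, hN, hind⟩ := h 3 9 (by norm_num) (by norm_num) K C hK hC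
  exact hno N hN hind

end Pool.Agent.Results.MP_6a4d09_co.FinestCell
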